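import Pool.Agent.Q231.LMD.Stubs
import Pool.Agent.H49R2.PC.V1
import Pool.Agent.H49R2.PC.V2
import Pool.Agent.H49R2.PY.Y1
import Pool.Agent.H671R2.PolyAuto

/-!
# Local metric dimension: polynomial time of the graph and of the reduction (tasks P3 and P)
-/

set_option autoImplicit false

namespace Pool.Agent.Q192.LMDP3

open Pool.Agent.NPC Pool.Agent.NPC.Cnt Pool.Agent.H49R2.PC Pool.Agent.Q231.LMD

variable {α : Type} [TEnc α]

@[fun_prop]
theorem poly_dedup {β : Type} [TEnc β] [DecidableEq β] {f : α → List β} (hf : Poly f) :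
    Poly (fun a => (f a).dedup) :=
  Pool.Agent.H49R2.PY.Y1aux.dedup hf

@[fun_prop]
theorem poly_att {f : α → Sp} (hf : Poly f) : Poly (fun a => att (f a)) := by
  unfold att
  fun_prop

@[fun_prop]
theorem poly_hbs {f : α → Sp} (hf : Poly f) : Poly (fun a => hbs (f a)) := by
  unfold hbs
  fun_prop

theorem poly_selV : Poly selV := by
  unfold selV
  fun_prop

theorem poly_hubV : Poly hubV := by
  unfold hubV
  fun_prop

theorem poly_gE : Poly gE := by
  have h1 := poly_selV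
  have h2 := poly_hubV
  unfold gE
  fun_prop

theorem P3_ok : S_P3 := ⟨poly_hubV, poly_gE⟩

theorem Pi_ok : S_Pi := by
  rintro h1 h2 ⟨h3, h4⟩
  have hB : Poly blocksOf := V1_ok
  have hL : Poly (fun φ : CNF ℕ => latS (blocksOf φ)) := NPC.Poly.comp V2_ok.2.1 hB
  have hK : Poly (fun φ : CNF ℕ => triK (blocksOf φ)) := NPC.Poly.comp h1 hB
  have hE : Poly (fun φ : CNF ℕ => EL (latS (blocksOf φ)) (triK (blocksOf φ))) :=
    NPC.Poly.comp (g := fun x : List Pt × List (Pt × ℕ) => EL x.1 x.2) h2 (NPC.Poly.pair hL hK)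
  have hG : Poly (fun φ : CNF ℕ => gE (EL (latS (blocksOf φ)) (triK (blocksOf φ)))) :=
    NPC.Poly.comp h4 hE
  have hH : Poly (fun φ : CNF ℕ => hubV (EL (latS (blocksOf φ)) (triK (blocksOf φ)))) :=
    NPC.Poly.comp h3 hE
  exact NPC.Poly.pair hG (NPC.Poly.add hH.length (NPC.Poly.add
    (NPC.Poly.mul (NPC.Poly.const 6) hL.length) (NPC.Poly.mul (NPC.Poly.const 2) hK.length)))

end Pool.Agent.Q192.LMDP3
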